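import Pool.Agent.Helper14.TK7.StD

/-!
# Project TK (levels `3·7^n`): solutions of the relations with given leading forms
-/

set_option autoImplicit false

namespace Pool.Agent.Helper18.TK7

open Pool.Agent.Helper14.TK7 Pool.Agent.Helper84.S7
open Pool.Agent.Helper4.S7 (Tm mulL sclL Gd pj S7Pj)

private theorem DfK_eq {q q' : ℕ} (u : Fin 5 → Fn7 q q') : (DfK u : Fn7 q q') =
    u 0 - op7 1 1 0 1 (u 0) - (u 1 - op7 6 (-1) 3 (-3) (u 1)) - (u 2 - op7 9 (-4) 3 (-9) (u 2)) -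
      (u 3 - op7 12 (-7) 3 (-12) (u 3)) - (u 4 - op7 18 (-13) 3 (-15) (u 4)) := rfl

private theorem solK0 {q q' : ℕ} (u : Fin 5 → Fn7 q q') : (solK u 0 : Fn7 q q') = u 0 := rfl

private theorem solK1 {q q' : ℕ} (u : Fin 5 → Fn7 q q') :
    (solK u 1 : Fn7 q q') = u 1 - op7 6 (-1) 3 (-3) (u 1) := by
  have h : (solK u 1 : Fn7 q q') = u 1 - op7 6 (-1) 3 (-3) (u 1) + 0 + 0 := rfl
  rw [h, add_zero, add_zero]

private theorem solK2 {q q' : ℕ} (u : Fin 5 → Fn7 q q') :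
    (solK u 2 : Fn7 q q') = u 1 - op7 6 (-1) 3 (-3) (u 1) + (u 2 - op7 9 (-4) 3 (-9) (u 2)) := by
  have h : (solK u 2 : Fn7 q q') = u 1 - op7 6 (-1) 3 (-3) (u 1) +
    (u 2 - op7 9 (-4) 3 (-9) (u 2)) + 0 := rfl
  rw [h, add_zero]

private theorem solK3 {q q' : ℕ} (u : Fin 5 → Fn7 q q') :
    (solK u 3 : Fn7 q q') = u 1 - op7 6 (-1) 3 (-3) (u 1) + (u 2 - op7 9 (-4) 3 (-9) (u 2)) +
      (u 3 - op7 12 (-7) 3 (-12) (u 3)) := rfl

private theorem relK_add {q q' : ℕ} (F F' : Fin 4 → Fn7 q q') (h : RelK F) (h' : RelK F') :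
    RelK (fun i => F i + F' i) := by
  obtain ⟨h1, h2, h3, h4⟩ := h
  obtain ⟨k1, k2, k3, k4⟩ := h'
  have hn : ∀ (f g : Fn7 q q') (x : ZMod q) (y : ZMod q'), nrK (f + g) x y = nrK f x y + nrK g x y := by
    intro f g x y
    simp only [nrK, tr7, Pi.add_apply]
    abel
  have ht : ∀ (f g : Fn7 q q') (x : ZMod q) (y : ZMod q'), ntK (f + g) x y = ntK f x y + ntK g x y := by
    intro f g x y
    simp only [ntK, tr7, Pi.add_apply]
    abel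
  have hk : (kK (fun i => F i + F' i) : Fn7 q q') = kK F + kK F' := by
    funext x y
    simp only [kK, tr7, Pi.add_apply]
    abel
  have hf : ∀ (a b c d : ℤ) (f g : Fn7 q q') (x : ZMod q) (y : ZMod q'),
      tr7 a b c d (f + g) x y = tr7 a b c d f x y + tr7 a b c d g x y := fun _ _ _ _ _ _ _ _ => rfl
  refine ⟨?_, ?_, ?_, ?_⟩
  · intro x y
    change nrK (F 1 + F' 1) x y = 0
    rw [hn, h1, k1, add_zero]
  · intro x y
    change (F 2 + F' 2) x y - (F 1 + F' 1) x y + (tr7 9 (-4) 3 (-9) (F 2 + F' 2) x y -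
      tr7 9 (-4) 3 (-9) (F 1 + F' 1) x y) = 0
    have e := congrArg₂ (fun a b : ZMod 7 => a + b) (h2 x y) (k2 x y)
    simp only [add_zero] at e
    rw [hf, hf, Pi.add_apply, Pi.add_apply, Pi.add_apply, Pi.add_apply, ← e]
    abel
  · intro x y
    change (F 3 + F' 3) x y - (F 2 + F' 2) x y + (tr7 12 (-7) 3 (-12) (F 3 + F' 3) x y -
      tr7 12 (-7) 3 (-12) (F 2 + F' 2) x y) = 0
    have e := congrArg₂ (fun a b : ZMod 7 => a + b) (h3 x y) (k3 x y)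
    simp only [add_zero] at e
    rw [hf, hf, Pi.add_apply, Pi.add_apply, Pi.add_apply, Pi.add_apply, ← e]
    abel
  · intro x y
    rw [hk, ht, h4, k4, add_zero]

section led

variable {r s : ℕ}

/-- One term of the defect under `pj 0`. -/
private theorem pterm (hj : S7Pj) (hl : S7Low0) (w : Fin 6) (d : ℤ) (al be : ZMod 7)
    (v : Fn7 (7 ^ r) (7 ^ s)) (hv : v ∈ Wd7 d) :
    pj 0 (v - oW w (v + (al • dX v + be • dY v))) + (al • dX (pj 1 v) + be • dY (pj 5 v)) ∈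
      Wd7 (d - 2) := by
  obtain ⟨-, -, -, -, wmono, -, ldx, ldy, -⟩ := hl r s
  obtain ⟨-, -, -, pw, -, pd, -, -⟩ := hj r s
  have k0 : (((om6 w) ^ 0 : ℤ) : ZMod 7) = 1 := by simp
  have hX : al • dX v + be • dY v ∈ Wd7 (d - 1) :=
    Submodule.add_mem _ (Submodule.smul_mem _ _ (ldx _ _ hv)) (Submodule.smul_mem _ _ (ldy _ _ hv))
  have t2 := (pw 0 w).1 _ _ (Submodule.add_mem _ hv (wmono _ _ (by linarith : d - 1 ≤ d) hX))
  rw [k0] at t2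
  have t3 := (pd 0).1 _ _ hv
  have t4 := (pd 0).2 _ _ hv
  have e : pj 0 (v - oW w (v + (al • dX v + be • dY v))) + (al • dX (pj 1 v) + be • dY (pj 5 v)) =
      -(pj 0 * oW w - (1 : ZMod 7) • pj 0 : Module.End (ZMod 7) (Fn7 (7 ^ r) (7 ^ s)))
        (v + (al • dX v + be • dY v)) -
      al • (pj 0 * dX - dX * pj (0 + 1) : Module.End (ZMod 7) (Fn7 (7 ^ r) (7 ^ s))) v -
      be • (pj 0 * dY - dY * pj (0 + 5) : Module.End (ZMod 7) (Fn7 (7 ^ r) (7 ^ s))) v := by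
    simp only [LinearMap.sub_apply, Module.End.mul_apply, LinearMap.smul_apply, map_add, map_sub,
      map_smul, zero_add]
    module
  rw [e]
  exact Submodule.sub_mem _ (Submodule.sub_mem _ (Submodule.neg_mem _ (wmono _ _ (by linarith) t2))
    (Submodule.smul_mem _ _ t3)) (Submodule.smul_mem _ _ t4)

/-- The master lemma. -/
private theorem master (hl : S7Low0) (hn : S7Nfa) (hj : S7Pj) (hst : TSta) (hw : TLwd)
    (hs : TSur) (d : ℤ) (hd : d < 7 ^ r + 7 ^ s) (u : Fin 5 → Fn7 (7 ^ r) (7 ^ s))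
    (hu : ∀ f, u f ∈ Wd7 d)
    (h2 : (u 1 - oW 5 (u 1)) + (u 2 - oW 3 (u 2)) + (u 3 - oW 3 (u 3)) + (u 4 - oW 1 (u 4)) ∈
      Wd7 (d - 1))
    (h0 : dX (pj 1 (-u 0 + u 1 + (5 : ZMod 7) • u 2 + (2 : ZMod 7) • u 4)) +
      dY (pj 5 ((6 : ZMod 7) • u 1 + (2 : ZMod 7) • u 2 + (5 : ZMod 7) • u 3 + (4 : ZMod 7) • u 4)) ∈
      Wd7 (d - 2)) :
    ∃ v : Fin 5 → Fn7 (7 ^ r) (7 ^ s), (∀ x y, DfK v x y = 0) ∧ ∀ f, v f - u f ∈ Wd7 (d - 1) := by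
  obtain ⟨-, -, -, -, wmono, -, ldx, ldy, -⟩ := hl r s
  obtain ⟨nW, -⟩ := hn r s
  obtain ⟨p0, -, -, pw, -, pd, -, -⟩ := hj r s
  have mo : ∀ {x : Fn7 (7 ^ r) (7 ^ s)} {e e' : ℤ}, x ∈ Wd7 e → e ≤ e' → x ∈ Wd7 e' :=
    fun hx h => wmono _ _ h hx
  obtain ⟨E, hE⟩ : ∃ E : Fn7 (7 ^ r) (7 ^ s), E = DfK u := ⟨_, rfl⟩
  have hE2 := hw r s d u hu
  rw [← hE] at hE2
  have dxy : ∀ (al be : ZMod 7) (f : Fin 5), al • dX (u f) + be • dY (u f) ∈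
      (Wd7 (d - 1) : Submodule (ZMod 7) (Fn7 (7 ^ r) (7 ^ s))) := fun al be f =>
    Submodule.add_mem _ (Submodule.smul_mem _ _ (ldx _ _ (hu f))) (Submodule.smul_mem _ _ (ldy _ _ (hu f)))
  have nxy : ∀ (w : Fin 6) (al be : ZMod 7) (f : Fin 5), oW w (al • dX (u f) + be • dY (u f)) ∈
      (Wd7 (d - 1) : Submodule (ZMod 7) (Fn7 (7 ^ r) (7 ^ s))) := fun w al be f =>
    mo (nW w _ _ (dxy al be f)) (by linarith)
  -- normal form of the congruence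
  have hE3 : E + dX (u 0) + (u 1 - oW 5 (u 1 + ((1 : ZMod 7) • dX (u 1) + (6 : ZMod 7) • dY (u 1)))) +
      (u 2 - oW 3 (u 2 + ((5 : ZMod 7) • dX (u 2) + (2 : ZMod 7) • dY (u 2)))) +
      (u 3 - oW 3 (u 3 + ((0 : ZMod 7) • dX (u 3) + (5 : ZMod 7) • dY (u 3)))) +
      (u 4 - oW 1 (u 4 + ((2 : ZMod 7) • dX (u 4) + (4 : ZMod 7) • dY (u 4)))) ∈ Wd7 (d - 2) := by
    rw [one_smul, zero_smul, zero_add, ← add_assoc (u 1), ← add_assoc (u 2), ← add_assoc (u 4)]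
    exact hE2
  have hE1 : E ∈ Wd7 (d - 1) := by
    have e : E = (E + dX (u 0) + (u 1 - oW 5 (u 1 + ((1 : ZMod 7) • dX (u 1) + (6 : ZMod 7) • dY (u 1)))) +
      (u 2 - oW 3 (u 2 + ((5 : ZMod 7) • dX (u 2) + (2 : ZMod 7) • dY (u 2)))) +
      (u 3 - oW 3 (u 3 + ((0 : ZMod 7) • dX (u 3) + (5 : ZMod 7) • dY (u 3)))) +
      (u 4 - oW 1 (u 4 + ((2 : ZMod 7) • dX (u 4) + (4 : ZMod 7) • dY (u 4))))) - dX (u 0) -
      ((u 1 - oW 5 (u 1)) + (u 2 - oW 3 (u 2)) + (u 3 - oW 3 (u 3)) + (u 4 - oW 1 (u 4))) +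
      oW 5 ((1 : ZMod 7) • dX (u 1) + (6 : ZMod 7) • dY (u 1)) +
      oW 3 ((5 : ZMod 7) • dX (u 2) + (2 : ZMod 7) • dY (u 2)) +
      oW 3 ((0 : ZMod 7) • dX (u 3) + (5 : ZMod 7) • dY (u 3)) +
      oW 1 ((2 : ZMod 7) • dX (u 4) + (4 : ZMod 7) • dY (u 4)) := by
      rw [map_add (oW 5) (u 1), map_add (oW 3) (u 2), map_add (oW 3) (u 3), map_add (oW 1) (u 4)]
      abel
    rw [e]
    exact Submodule.add_mem _ (Submodule.add_mem _ (Submodule.add_mem _ (Submodule.add_mem _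
      (Submodule.sub_mem _ (Submodule.sub_mem _ (mo hE3 (by linarith)) (ldx _ _ (hu 0))) h2)
      (nxy 5 1 6 1)) (nxy 3 5 2 2)) (nxy 3 0 5 3)) (nxy 1 2 4 4)
  have hp0 : pj 0 E ∈ Wd7 (d - 1 - 1) := by
    have t1 := p0 0 _ _ hE3
    have t0 := (pd 0).1 _ _ (hu 0)
    have q1 := pterm hj hl 5 d 1 6 (u 1) (hu 1)
    have q2 := pterm hj hl 3 d 5 2 (u 2) (hu 2)
    have q3 := pterm hj hl 3 d 0 5 (u 3) (hu 3)
    have q4 := pterm hj hl 1 d 2 4 (u 4) (hu 4)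
    obtain ⟨Z1, hZ1⟩ : ∃ Z : Fn7 (7 ^ r) (7 ^ s), Z = u 1 - oW 5 (u 1 + ((1 : ZMod 7) • dX (u 1) +
      (6 : ZMod 7) • dY (u 1))) := ⟨_, rfl⟩
    obtain ⟨Z2, hZ2⟩ : ∃ Z : Fn7 (7 ^ r) (7 ^ s), Z = u 2 - oW 3 (u 2 + ((5 : ZMod 7) • dX (u 2) +
      (2 : ZMod 7) • dY (u 2))) := ⟨_, rfl⟩
    obtain ⟨Z3, hZ3⟩ : ∃ Z : Fn7 (7 ^ r) (7 ^ s), Z = u 3 - oW 3 (u 3 + ((0 : ZMod 7) • dX (u 3) +
      (5 : ZMod 7) • dY (u 3))) := ⟨_, rfl⟩
    obtain ⟨Z4, hZ4⟩ : ∃ Z : Fn7 (7 ^ r) (7 ^ s), Z = u 4 - oW 1 (u 4 + ((2 : ZMod 7) • dX (u 4) +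
      (4 : ZMod 7) • dY (u 4))) := ⟨_, rfl⟩
    rw [← hZ1, ← hZ2, ← hZ3, ← hZ4] at t1
    rw [← hZ1] at q1
    rw [← hZ2] at q2
    rw [← hZ3] at q3
    rw [← hZ4] at q4
    have e : pj 0 E = pj 0 (E + dX (u 0) + Z1 + Z2 + Z3 + Z4) -
        (pj 0 * dX - dX * pj (0 + 1) : Module.End (ZMod 7) (Fn7 (7 ^ r) (7 ^ s))) (u 0) -
        (pj 0 Z1 + ((1 : ZMod 7) • dX (pj 1 (u 1)) + (6 : ZMod 7) • dY (pj 5 (u 1)))) -
        (pj 0 Z2 + ((5 : ZMod 7) • dX (pj 1 (u 2)) + (2 : ZMod 7) • dY (pj 5 (u 2)))) -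
        (pj 0 Z3 + ((0 : ZMod 7) • dX (pj 1 (u 3)) + (5 : ZMod 7) • dY (pj 5 (u 3)))) -
        (pj 0 Z4 + ((2 : ZMod 7) • dX (pj 1 (u 4)) + (4 : ZMod 7) • dY (pj 5 (u 4)))) +
        (dX (pj 1 (-u 0 + u 1 + (5 : ZMod 7) • u 2 + (2 : ZMod 7) • u 4)) +
          dY (pj 5 ((6 : ZMod 7) • u 1 + (2 : ZMod 7) • u 2 + (5 : ZMod 7) • u 3 +
            (4 : ZMod 7) • u 4))) := by
      simp only [LinearMap.sub_apply, Module.End.mul_apply, map_add, map_neg,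
        map_smul, zero_add]
      module
    rw [e]
    have ed : d - 1 - 1 = d - 2 := by ring
    rw [ed]
    exact Submodule.add_mem _ (Submodule.sub_mem _ (Submodule.sub_mem _ (Submodule.sub_mem _
      (Submodule.sub_mem _ (Submodule.sub_mem _ (mo t1 (by linarith)) t0) q1) q2) q3) q4) h0
  obtain ⟨a, ha, hE'⟩ := hst r s (d - 1) E hE1 hp0
  obtain ⟨G, hG, hGE⟩ := hs r s (d - 1 - 1) _ (by linarith) hE'
  have ed : d - 1 - 1 + 1 = d - 1 := by ring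
  rw [ed] at hG
  refine ⟨![u 0 - G 0, u 1 + a - G 1, u 2 - G 2, u 3 - G 3, u 4 - G 4], ?_, ?_⟩
  · have h : (DfK ![u 0 - G 0, u 1 + a - G 1, u 2 - G 2, u 3 - G 3, u 4 - G 4] : Fn7 (7 ^ r) (7 ^ s)) = 0 := by
      have e1 : (DfK ![u 0 - G 0, u 1 + a - G 1, u 2 - G 2, u 3 - G 3, u 4 - G 4] : Fn7 (7 ^ r) (7 ^ s)) =
          (u 0 - G 0) - op7 1 1 0 1 (u 0 - G 0) - ((u 1 + a - G 1) - op7 6 (-1) 3 (-3) (u 1 + a - G 1)) -
          ((u 2 - G 2) - op7 9 (-4) 3 (-9) (u 2 - G 2)) -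
          ((u 3 - G 3) - op7 12 (-7) 3 (-12) (u 3 - G 3)) -
          ((u 4 - G 4) - op7 18 (-13) 3 (-15) (u 4 - G 4)) := rfl
      have e2 := DfK_eq u
      have e3 := DfK_eq G
      rw [hGE, hE, e2] at e3
      rw [e1]
      simp only [map_sub, map_add]
      have e4 := sub_eq_zero.mpr e3
      rw [← e4]
      abel
    exact fun x y => congrFun (congrFun h x) y
  · intro f
    fin_cases f
    · change u 0 - G 0 - u 0 ∈ Wd7 (d - 1)
      have e : u 0 - G 0 - u 0 = -G 0 := by abel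
      rw [e]
      exact Submodule.neg_mem _ (hG 0)
    · change u 1 + a - G 1 - u 1 ∈ Wd7 (d - 1)
      have e : u 1 + a - G 1 - u 1 = a - G 1 := by abel
      rw [e]
      exact Submodule.sub_mem _ ha (hG 1)
    · change u 2 - G 2 - u 2 ∈ Wd7 (d - 1)
      have e : u 2 - G 2 - u 2 = -G 2 := by abel
      rw [e]
      exact Submodule.neg_mem _ (hG 2)
    · change u 3 - G 3 - u 3 ∈ Wd7 (d - 1)
      have e : u 3 - G 3 - u 3 = -G 3 := by abel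
      rw [e]
      exact Submodule.neg_mem _ (hG 3)
    · change u 4 - G 4 - u 4 ∈ Wd7 (d - 1)
      have e : u 4 - G 4 - u 4 = -G 4 := by abel
      rw [e]
      exact Submodule.neg_mem _ (hG 4)

/-- The three operators are `oW w` up to lower degree. -/
private theorem lead (hl : S7Low0) (hn : S7Nfa) (hw : TLwd) (d : ℤ) (x : Fn7 (7 ^ r) (7 ^ s)) (hx : x ∈ Wd7 d) :
    op7 6 (-1) 3 (-3) x - oW 5 x ∈ Wd7 (d - 1) ∧ op7 9 (-4) 3 (-9) x - oW 3 x ∈ Wd7 (d - 1) ∧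
      op7 12 (-7) 3 (-12) x - oW 3 x ∈ Wd7 (d - 1) := by
  obtain ⟨-, -, -, -, wmono, -, ldx, ldy, -⟩ := hl r s
  obtain ⟨nW, -⟩ := hn r s
  have mo : ∀ {x : Fn7 (7 ^ r) (7 ^ s)} {e e' : ℤ}, x ∈ Wd7 e → e ≤ e' → x ∈ Wd7 e' :=
    fun hx h => wmono _ _ h hx
  have hz : (0 : Fn7 (7 ^ r) (7 ^ s)) ∈ Wd7 d := Submodule.zero_mem _
  have dx := ldx _ _ hx
  have dy := ldy _ _ hx
  have nn : ∀ (w : Fin 6) (y : Fn7 (7 ^ r) (7 ^ s)), y ∈ Wd7 (d - 1) → oW w y ∈ Wd7 (d - 1) :=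
    fun w y hy => mo (nW w _ _ hy) (by linarith)
  refine ⟨?_, ?_, ?_⟩
  · have h := hw r s d ![0, x, 0, 0, 0] (by
      intro f
      fin_cases f
      · exact hz
      · exact hx
      · exact hz
      · exact hz
      · exact hz)
    rw [DfK_eq] at h
    have e0 : (![0, x, 0, 0, 0] : Fin 5 → Fn7 (7 ^ r) (7 ^ s)) 0 = 0 := rfl
    have e1 : (![0, x, 0, 0, 0] : Fin 5 → Fn7 (7 ^ r) (7 ^ s)) 1 = x := rfl
    have e2 : (![0, x, 0, 0, 0] : Fin 5 → Fn7 (7 ^ r) (7 ^ s)) 2 = 0 := rfl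
    have e3 : (![0, x, 0, 0, 0] : Fin 5 → Fn7 (7 ^ r) (7 ^ s)) 3 = 0 := rfl
    have e4 : (![0, x, 0, 0, 0] : Fin 5 → Fn7 (7 ^ r) (7 ^ s)) 4 = 0 := rfl
    rw [e0, e1, e2, e3, e4] at h
    simp only [map_zero, smul_zero, add_zero, sub_zero, zero_sub] at h
    have e : op7 6 (-1) 3 (-3) x - oW 5 x = (-(x - op7 6 (-1) 3 (-3) x) +
        (x - oW 5 (x + dX x + (6 : ZMod 7) • dY x))) + oW 5 (dX x + (6 : ZMod 7) • dY x) := by
      rw [add_assoc x, map_add (oW 5) x]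
      abel
    rw [e]
    exact Submodule.add_mem _ (mo h (by linarith))
      (nn 5 _ (Submodule.add_mem _ dx (Submodule.smul_mem _ _ dy)))
  · have h := hw r s d ![0, 0, x, 0, 0] (by
      intro f
      fin_cases f
      · exact hz
      · exact hz
      · exact hx
      · exact hz
      · exact hz)
    rw [DfK_eq] at h
    have e0 : (![0, 0, x, 0, 0] : Fin 5 → Fn7 (7 ^ r) (7 ^ s)) 0 = 0 := rfl
    have e1 : (![0, 0, x, 0, 0] : Fin 5 → Fn7 (7 ^ r) (7 ^ s)) 1 = 0 := rfl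
    have e2 : (![0, 0, x, 0, 0] : Fin 5 → Fn7 (7 ^ r) (7 ^ s)) 2 = x := rfl
    have e3 : (![0, 0, x, 0, 0] : Fin 5 → Fn7 (7 ^ r) (7 ^ s)) 3 = 0 := rfl
    have e4 : (![0, 0, x, 0, 0] : Fin 5 → Fn7 (7 ^ r) (7 ^ s)) 4 = 0 := rfl
    rw [e0, e1, e2, e3, e4] at h
    simp only [map_zero, smul_zero, add_zero, sub_zero, zero_sub] at h
    have e : op7 9 (-4) 3 (-9) x - oW 3 x = (-(x - op7 9 (-4) 3 (-9) x) +
        (x - oW 3 (x + (5 : ZMod 7) • dX x + (2 : ZMod 7) • dY x))) +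
          oW 3 ((5 : ZMod 7) • dX x + (2 : ZMod 7) • dY x) := by
      rw [add_assoc x, map_add (oW 3) x]
      abel
    rw [e]
    exact Submodule.add_mem _ (mo h (by linarith))
      (nn 3 _ (Submodule.add_mem _ (Submodule.smul_mem _ _ dx) (Submodule.smul_mem _ _ dy)))
  · have h := hw r s d ![0, 0, 0, x, 0] (by
      intro f
      fin_cases f
      · exact hz
      · exact hz
      · exact hz
      · exact hx
      · exact hz)
    rw [DfK_eq] at h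
    have e0 : (![0, 0, 0, x, 0] : Fin 5 → Fn7 (7 ^ r) (7 ^ s)) 0 = 0 := rfl
    have e1 : (![0, 0, 0, x, 0] : Fin 5 → Fn7 (7 ^ r) (7 ^ s)) 1 = 0 := rfl
    have e2 : (![0, 0, 0, x, 0] : Fin 5 → Fn7 (7 ^ r) (7 ^ s)) 2 = 0 := rfl
    have e3 : (![0, 0, 0, x, 0] : Fin 5 → Fn7 (7 ^ r) (7 ^ s)) 3 = x := rfl
    have e4 : (![0, 0, 0, x, 0] : Fin 5 → Fn7 (7 ^ r) (7 ^ s)) 4 = 0 := rfl
    rw [e0, e1, e2, e3, e4] at h
    simp only [map_zero, smul_zero, add_zero, sub_zero, zero_sub] at h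
    have e : op7 12 (-7) 3 (-12) x - oW 3 x = (-(x - op7 12 (-7) 3 (-12) x) +
        (x - oW 3 (x + (5 : ZMod 7) • dY x))) + oW 3 ((5 : ZMod 7) • dY x) := by
      rw [map_add (oW 3) x]
      abel
    rw [e]
    exact Submodule.add_mem _ (mo h (by linarith)) (nn 3 _ (Submodule.smul_mem _ _ dy))

/-- The leading form of one term of the solution. -/
private theorem sterm (nW : ∀ w : Fin 6, Lw (oW w : Module.End (ZMod 7) (Fn7 (7 ^ r) (7 ^ s))) 0)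
    (wmono : ∀ d d' : ℤ, d ≤ d' → (Wd7 d : Submodule (ZMod 7) (Fn7 (7 ^ r) (7 ^ s))) ≤ Wd7 d')
    (d : ℤ) (w : Fin 6) (O : Module.End (ZMod 7) (Fn7 (7 ^ r) (7 ^ s)))
    (hO : ∀ x : Fn7 (7 ^ r) (7 ^ s), x ∈ Wd7 d → O x - oW w x ∈ Wd7 (d - 1))
    (P v : Fn7 (7 ^ r) (7 ^ s)) (m t x : ZMod 7) (hP : P ∈ Wd7 d) (hx : oW w P - x • P ∈ Wd7 (d - 1))
    (hv : v - m • P ∈ Wd7 (d - 1)) (ht : t = (1 - x) * m) : (v - O v) - t • P ∈ Wd7 (d - 1) := by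
  have hvd : v ∈ Wd7 d := by
    have e : v = (v - m • P) + m • P := by abel
    rw [e]
    exact Submodule.add_mem _ (wmono _ _ (by linarith) hv) (Submodule.smul_mem _ _ hP)
  have n1 : oW w (v - m • P) ∈ Wd7 (d - 1) := by
    have := nW w _ _ hv
    rwa [sub_zero] at this
  have e : (v - O v) - t • P = (v - m • P) - oW w (v - m • P) - (O v - oW w v) -
      m • (oW w P - x • P) := by
    rw [ht, map_sub, map_smul]
    module
  rw [e]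
  exact Submodule.sub_mem _ (Submodule.sub_mem _ (Submodule.sub_mem _ hv n1) (hO v hvd))
    (Submodule.smul_mem _ _ hx)

/-- The core lemma: one monomial. -/
private theorem core (hl : S7Low0) (hn : S7Nfa) (hj : S7Pj) (hb : S7Bb) (hq : TSol) (hst : TSta) (hw : TLwd)
    (hs : TSur) (A B k : ℕ) (hA : A < 7 ^ r) (hB : B < 7 ^ s) (hk : ((A : ℤ) - B - (k : ℤ)) % 6 = 0)
    (hk6 : k < 6) (m0 m1 m2 m3 m4 t1 t2 t3 : ZMod 7)
    (c1 : t1 = (1 - (((om6 5) ^ k : ℤ) : ZMod 7)) * m1)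
    (c2 : t2 = t1 + (1 - (((om6 3) ^ k : ℤ) : ZMod 7)) * m2)
    (c3 : t3 = t2 + (1 - (((om6 3) ^ k : ℤ) : ZMod 7)) * m3)
    (c4 : t3 + (1 - (((om6 1) ^ k : ℤ) : ZMod 7)) * m4 = 0)
    (c5 : k = 1 → -m0 + m1 + 5 * m2 + 2 * m4 = 0)
    (c6 : k = 5 → 6 * m1 + 2 * m2 + 5 * m3 + 4 * m4 = 0) :
    ∃ F : Fin 4 → Fn7 (7 ^ r) (7 ^ s), RelK F ∧
      F 0 - m0 • bb7 A B ∈ Wd7 ((A : ℤ) + B - 1) ∧ F 1 - t1 • bb7 A B ∈ Wd7 ((A : ℤ) + B - 1) ∧
      F 2 - t2 • bb7 A B ∈ Wd7 ((A : ℤ) + B - 1) ∧ F 3 - t3 • bb7 A B ∈ Wd7 ((A : ℤ) + B - 1) := by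
  obtain ⟨-, -, -, -, wmono, -, ldx, ldy, -⟩ := hl r s
  obtain ⟨nW, -⟩ := hn r s
  obtain ⟨b1, -⟩ := hb r s
  obtain ⟨-, -, -, pw, -, -, -, pc⟩ := hj r s
  obtain ⟨d, hd⟩ : ∃ d : ℤ, d = (A : ℤ) + B := ⟨_, rfl⟩
  have hdlt : d < 7 ^ r + 7 ^ s := by
    have h5 : (A : ℤ) < 7 ^ r := by exact_mod_cast hA
    have h6 : (B : ℤ) < 7 ^ s := by exact_mod_cast hB
    rw [hd]
    linarith
  obtain ⟨P, hP⟩ : ∃ P : Fn7 (7 ^ r) (7 ^ s), P = bb7 A B := ⟨_, rfl⟩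
  have hPW : P ∈ Wd7 d := by
    rw [hP, hd]
    exact b1 _ _ hA hB
  rw [← hP, ← hd]
  have n0 : pj k P - P ∈ Wd7 (d - 1) := by
    have h := pc k A B hA hB
    rw [if_pos hk, ← hP, ← hd] at h
    exact h
  have n1 : ∀ c' : ℕ, ((A : ℤ) - B - (c' : ℤ)) % 6 ≠ 0 → pj c' P ∈ Wd7 (d - 1) := by
    intro c' hc'
    have h := pc c' A B hA hB
    rw [if_neg hc', sub_zero, ← hP, ← hd] at h
    exact h
  have act : ∀ w : Fin 6, oW w P - (((om6 w) ^ k : ℤ) : ZMod 7) • P ∈ Wd7 (d - 1) := by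
    intro w
    have q1 := nW w _ _ n0
    rw [sub_zero] at q1
    have q2 := (pw k w).2 _ _ hPW
    have e : oW w P - (((om6 w) ^ k : ℤ) : ZMod 7) • P = -oW w (pj k P - P) +
        (oW w * pj k - (((om6 w) ^ k : ℤ) : ZMod 7) • pj k : Module.End (ZMod 7) (Fn7 (7 ^ r) (7 ^ s))) P +
        (((om6 w) ^ k : ℤ) : ZMod 7) • (pj k P - P) := by
      simp only [LinearMap.sub_apply, Module.End.mul_apply, LinearMap.smul_apply, map_sub]
      module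
    rw [e]
    exact Submodule.add_mem _ (Submodule.add_mem _ (Submodule.neg_mem _ q1)
      (wmono _ _ (by linarith) q2)) (Submodule.smul_mem _ _ n0)
  have a5 := act 5
  have a3 := act 3
  have a1 := act 1
  obtain ⟨x5, hx5⟩ : ∃ x : ZMod 7, x = (((om6 5) ^ k : ℤ) : ZMod 7) := ⟨_, rfl⟩
  obtain ⟨x3, hx3⟩ : ∃ x : ZMod 7, x = (((om6 3) ^ k : ℤ) : ZMod 7) := ⟨_, rfl⟩
  obtain ⟨x1, hx1⟩ : ∃ x : ZMod 7, x = (((om6 1) ^ k : ℤ) : ZMod 7) := ⟨_, rfl⟩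
  rw [← hx5] at a5 c1
  rw [← hx3] at a3 c2 c3
  rw [← hx1] at a1 c4
  clear hx5 hx3 hx1 act
  obtain ⟨v, hv, hvu⟩ := master hl hn hj hst hw hs d hdlt ![m0 • P, m1 • P, m2 • P, m3 • P, m4 • P]
    (by
      intro f
      fin_cases f
      · exact Submodule.smul_mem _ _ hPW
      · exact Submodule.smul_mem _ _ hPW
      · exact Submodule.smul_mem _ _ hPW
      · exact Submodule.smul_mem _ _ hPW
      · exact Submodule.smul_mem _ _ hPW)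
    (by
      change (m1 • P - oW 5 (m1 • P)) + (m2 • P - oW 3 (m2 • P)) + (m3 • P - oW 3 (m3 • P)) +
        (m4 • P - oW 1 (m4 • P)) ∈ Wd7 (d - 1)
      have e : (m1 • P - oW 5 (m1 • P)) + (m2 • P - oW 3 (m2 • P)) + (m3 • P - oW 3 (m3 • P)) +
          (m4 • P - oW 1 (m4 • P)) = (t3 + (1 - x1) * m4) • P - m1 • (oW 5 P - x5 • P) -
          m2 • (oW 3 P - x3 • P) - m3 • (oW 3 P - x3 • P) - m4 • (oW 1 P - x1 • P) := by
        rw [c3, c2, c1]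
        simp only [map_smul]
        module
      rw [e, c4, zero_smul, zero_sub]
      exact Submodule.sub_mem _ (Submodule.sub_mem _ (Submodule.sub_mem _ (Submodule.neg_mem _
        (Submodule.smul_mem _ _ a5)) (Submodule.smul_mem _ _ a3)) (Submodule.smul_mem _ _ a3))
        (Submodule.smul_mem _ _ a1))
    (by
      change dX (pj 1 (-(m0 • P) + m1 • P + (5 : ZMod 7) • m2 • P + (2 : ZMod 7) • m4 • P)) +
        dY (pj 5 ((6 : ZMod 7) • m1 • P + (2 : ZMod 7) • m2 • P + (5 : ZMod 7) • m3 • P +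
          (4 : ZMod 7) • m4 • P)) ∈ Wd7 (d - 2)
      have e : dX (pj 1 (-(m0 • P) + m1 • P + (5 : ZMod 7) • m2 • P + (2 : ZMod 7) • m4 • P)) +
        dY (pj 5 ((6 : ZMod 7) • m1 • P + (2 : ZMod 7) • m2 • P + (5 : ZMod 7) • m3 • P +
          (4 : ZMod 7) • m4 • P)) = (-m0 + m1 + 5 * m2 + 2 * m4) • dX (pj 1 P) +
            (6 * m1 + 2 * m2 + 5 * m3 + 4 * m4) • dY (pj 5 P) := by
        simp only [map_add, map_neg, map_smul]
        module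
      rw [e]
      have ed : d - 2 = d - 1 - 1 := by ring
      rw [ed]
      apply Submodule.add_mem
      · by_cases h1 : k = 1
        · rw [c5 h1, zero_smul]
          exact Submodule.zero_mem _
        · exact Submodule.smul_mem _ _ (ldx _ _ (n1 1 (by omega)))
      · by_cases h5 : k = 5
        · rw [c6 h5, zero_smul]
          exact Submodule.zero_mem _
        · exact Submodule.smul_mem _ _ (ldy _ _ (n1 5 (by omega))))
  have v0 : v 0 - m0 • P ∈ Wd7 (d - 1) := hvu 0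
  have v1 : v 1 - m1 • P ∈ Wd7 (d - 1) := hvu 1
  have v2 : v 2 - m2 • P ∈ Wd7 (d - 1) := hvu 2
  have v3 : v 3 - m3 • P ∈ Wd7 (d - 1) := hvu 3
  have s1 := sterm nW wmono d 5 (op7 6 (-1) 3 (-3)) (fun x hx => (lead hl hn hw d x hx).1) P (v 1) m1 t1 x5
    hPW a5 v1 c1
  have s2 := sterm nW wmono d 3 (op7 9 (-4) 3 (-9)) (fun x hx => (lead hl hn hw d x hx).2.1) P (v 2) m2
    ((1 - x3) * m2) x3 hPW a3 v2 rfl
  have s3 := sterm nW wmono d 3 (op7 12 (-7) 3 (-12)) (fun x hx => (lead hl hn hw d x hx).2.2) P (v 3) m3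
    ((1 - x3) * m3) x3 hPW a3 v3 rfl
  refine ⟨solK v, hq.1 (ZMod 7) _ r s v hv, ?_, ?_, ?_, ?_⟩
  · rw [solK0]
    exact v0
  · rw [solK1]
    exact s1
  · rw [solK2]
    have e : v 1 - op7 6 (-1) 3 (-3) (v 1) + (v 2 - op7 9 (-4) 3 (-9) (v 2)) - t2 • P =
        (v 1 - op7 6 (-1) 3 (-3) (v 1) - t1 • P) +
          (v 2 - op7 9 (-4) 3 (-9) (v 2) - ((1 - x3) * m2) • P) := by
      rw [c2]
      module
    rw [e]
    exact Submodule.add_mem _ s1 s2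
  · rw [solK3]
    have e : v 1 - op7 6 (-1) 3 (-3) (v 1) + (v 2 - op7 9 (-4) 3 (-9) (v 2)) +
        (v 3 - op7 12 (-7) 3 (-12) (v 3)) - t3 • P =
        (v 1 - op7 6 (-1) 3 (-3) (v 1) - t1 • P) +
          (v 2 - op7 9 (-4) 3 (-9) (v 2) - ((1 - x3) * m2) • P) +
          (v 3 - op7 12 (-7) 3 (-12) (v 3) - ((1 - x3) * m3) • P) := by
      rw [c3, c2]
      module
    rw [e]
    exact Submodule.add_mem _ (Submodule.add_mem _ s1 s2) s3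

/-- Assembly. -/
private theorem asm (e : ℤ) (T : Fin 4 → Fn7 (7 ^ r) (7 ^ s)) (T0 T1 T2 T3 : Fn7 (7 ^ r) (7 ^ s))
    (e0 : T 0 = T0 + 0) (e1 : T 1 = T1 + 0) (e2 : T 2 = T2 + 0) (e3 : T 3 = T3 + 0)
    (h : ∃ F : Fin 4 → Fn7 (7 ^ r) (7 ^ s), RelK F ∧ F 0 - T0 ∈ Wd7 e ∧
      F 1 - T1 ∈ Wd7 e ∧ F 2 - T2 ∈ Wd7 e ∧ F 3 - T3 ∈ Wd7 e) :
    ∃ F : Fin 4 → Fn7 (7 ^ r) (7 ^ s), RelK F ∧ ∀ f : Fin 4, F f - T f ∈ Wd7 e := by
  obtain ⟨F, hR, f0, f1, f2, f3⟩ := h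
  rw [add_zero] at e0 e1 e2 e3
  refine ⟨F, hR, fun f => ?_⟩
  fin_cases f
  · change F 0 - T 0 ∈ Wd7 e
    rw [e0]
    exact f0
  · change F 1 - T 1 ∈ Wd7 e
    rw [e1]
    exact f1
  · change F 2 - T 2 ∈ Wd7 e
    rw [e2]
    exact f2
  · change F 3 - T 3 ∈ Wd7 e
    rw [e3]
    exact f3

private theorem bb_top (B : ℕ) : (bb7 (7 ^ r) B : Fn7 (7 ^ r) (7 ^ s)) = 0 := by
  funext x y
  have h : x.val.choose (7 ^ r) = 0 := Nat.choose_eq_zero_of_lt (ZMod.val_lt x)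
  simp [bb7, h]

/-- The last family. -/
private theorem last (hl : S7Low0) (hn : S7Nfa) (hj : S7Pj) (hb : S7Bb) (hq : TSol) (hst : TSta) (hw : TLwd)
    (hs : TSur) (A B : ℕ) (hA : A < 7 ^ r) (hB : B < 7 ^ s) (hB1 : 1 ≤ B)
    (hk : ((A : ℤ) - B - (5 : ℤ)) % 6 = 0) :
    ∃ F : Fin 4 → Fn7 (7 ^ r) (7 ^ s), RelK F ∧ ∀ f : Fin 4, F f - tpK 7 A B f ∈ Wd7 ((A : ℤ) + B - 1) := by
  obtain ⟨F, hF, f0, f1, f2, f3⟩ := core hl hn hj hb hq hst hw hs A B 5 hA hB hk (by norm_num)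
    0 5 1 2 0 1 3 0 (by decide) (by decide) (by decide) (by decide) (by decide) (by decide)
  have e0 : (tpK 7 A B 0 : Fn7 (7 ^ r) (7 ^ s)) = (0 : ZMod 7) • bb7 A B + (-1 : ZMod 7) • bb7 (A + 1) (B - 1) := rfl
  have e1 : (tpK 7 A B 1 : Fn7 (7 ^ r) (7 ^ s)) = (1 : ZMod 7) • bb7 A B + (-2 : ZMod 7) • bb7 (A + 1) (B - 1) := rfl
  have e2 : (tpK 7 A B 2 : Fn7 (7 ^ r) (7 ^ s)) = (3 : ZMod 7) • bb7 A B + (0 : ZMod 7) • bb7 (A + 1) (B - 1) := rfl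
  have e3 : (tpK 7 A B 3 : Fn7 (7 ^ r) (7 ^ s)) = (0 : ZMod 7) • bb7 A B + (0 : ZMod 7) • bb7 (A + 1) (B - 1) := rfl
  by_cases hA1 : A + 1 < 7 ^ r
  · have hB2 : B - 1 < 7 ^ s := by omega
    obtain ⟨G, hG, g0, g1, g2, g3⟩ := core hl hn hj hb hq hst hw hs (A + 1) (B - 1) 1 hA1 hB2
      (by omega) (by norm_num) (-1) 1 1 0 0 (-2) 0 0 (by decide) (by decide) (by decide) (by decide)
      (by decide) (by decide)
    have ed : ((A + 1 : ℕ) : ℤ) + ((B - 1 : ℕ) : ℤ) - 1 = (A : ℤ) + B - 1 := by omega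
    rw [ed] at g0 g1 g2 g3
    refine ⟨fun i => F i + G i, relK_add F G hF hG, fun f => ?_⟩
    fin_cases f
    · change F 0 + G 0 - tpK 7 A B 0 ∈ _
      rw [e0, add_sub_add_comm]
      exact Submodule.add_mem _ f0 g0
    · change F 1 + G 1 - tpK 7 A B 1 ∈ _
      rw [e1, add_sub_add_comm]
      exact Submodule.add_mem _ f1 g1
    · change F 2 + G 2 - tpK 7 A B 2 ∈ _
      rw [e2, add_sub_add_comm]
      exact Submodule.add_mem _ f2 g2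
    · change F 3 + G 3 - tpK 7 A B 3 ∈ _
      rw [e3, add_sub_add_comm]
      exact Submodule.add_mem _ f3 g3
  · have hA2 : A + 1 = 7 ^ r := by omega
    rw [hA2, bb_top, smul_zero] at e0 e1
    rw [hA2, bb_top, smul_zero] at e2 e3
    exact asm _ _ _ _ _ _ e0 e1 e2 e3 ⟨F, hF, f0, f1, f2, f3⟩

end led

theorem hLed (_ht : S7Trm) (hl : S7Low0) (hn : S7Nfa) (hp : S7Pj) (hb : S7Bb) (hq : TSol) (hs : TSta)
    (hw : TLwd) (hu : TSur) : TLed := by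
  intro r s c i j hc hA hB
  have hdd : ((dgK c i j : ℕ) : ℤ) - 1 = ((aaK c + i + 7 * j : ℕ) : ℤ) + ((abK c + i + j : ℕ) : ℤ) - 1 := by
    unfold dgK
    push_cast
    ring
  rw [hdd]
  interval_cases c
  · have q3 : aaK 0 = 0 := rfl
    have q2 : abK 0 = 0 := rfl
    exact asm _ _ _ _ _ _ rfl rfl rfl rfl (core hl hn hp hb hq hs hw hu _ _ 0 hA hB
      (by rw [q3, q2]; push_cast; omega) (by norm_num) 1 0 0 0 0 0 0 0
      (by decide) (by decide) (by decide) (by decide) (by decide) (by decide))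
  · have q3 : aaK 1 = 1 := rfl
    have q2 : abK 1 = 0 := rfl
    exact asm _ _ _ _ _ _ rfl rfl rfl rfl (core hl hn hp hb hq hs hw hu _ _ 1 hA hB
      (by rw [q3, q2]; push_cast; omega) (by norm_num) 4 3 3 0 0 1 0 0
      (by decide) (by decide) (by decide) (by decide) (by decide) (by decide))
  · have q3 : aaK 2 = 2 := rfl
    have q2 : abK 2 = 0 := rfl
    exact asm _ _ _ _ _ _ rfl rfl rfl rfl (core hl hn hp hb hq hs hw hu _ _ 2 hA hB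
      (by rw [q3, q2]; push_cast; omega) (by norm_num) 1 0 0 0 0 0 0 0
      (by decide) (by decide) (by decide) (by decide) (by decide) (by decide))
  · have q3 : aaK 3 = 3 := rfl
    have q2 : abK 3 = 0 := rfl
    exact asm _ _ _ _ _ _ rfl rfl rfl rfl (core hl hn hp hb hq hs hw hu _ _ 3 hA hB
      (by rw [q3, q2]; push_cast; omega) (by norm_num) 0 4 3 0 0 1 0 0
      (by decide) (by decide) (by decide) (by decide) (by decide) (by decide))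
  · have q3 : aaK 4 = 3 := rfl
    have q2 : abK 4 = 1 := rfl
    exact asm _ _ _ _ _ _ rfl rfl rfl rfl (core hl hn hp hb hq hs hw hu _ _ 2 hA hB
      (by rw [q3, q2]; push_cast; omega) (by norm_num) (-1) 6 0 0 5 1 1 1
      (by decide) (by decide) (by decide) (by decide) (by decide) (by decide))
  · have q3 : aaK 5 = 5 := rfl
    have q2 : abK 5 = 1 := rfl
    exact asm _ _ _ _ _ _ rfl rfl rfl rfl (core hl hn hp hb hq hs hw hu _ _ 4 hA hB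
      (by rw [q3, q2]; push_cast; omega) (by norm_num) 1 0 0 0 0 0 0 0
      (by decide) (by decide) (by decide) (by decide) (by decide) (by decide))
  · have q3 : aaK 6 = 5 := rfl
    have q2 : abK 6 = 1 := rfl
    exact asm _ _ _ _ _ _ rfl rfl rfl rfl (core hl hn hp hb hq hs hw hu _ _ 4 hA hB
      (by rw [q3, q2]; push_cast; omega) (by norm_num) 2 2 0 0 1 1 1 1
      (by decide) (by decide) (by decide) (by decide) (by decide) (by decide))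
  · have q3 : aaK 7 = 6 := rfl
    have q2 : abK 7 = 1 := rfl
    exact last hl hn hp hb hq hs hw hu _ _ hA hB (by rw [q2]; omega) (by rw [q3, q2]; push_cast; omega)

end Pool.Agent.Helper18.TK7
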